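import Mathlib
import Pool.Agent.L5helper4.ML.FDef

/-!
# The integral of a product of two values of a quasi-independent family
-/

set_option autoImplicit false

namespace Pool.Agent.L5helper4.ML

open Finset Filter MeasureTheory
open Pool.Agent.W136.RF (cm cm_mul)

lemma cm_prod (e : ℕ → ℝ) (T : Finset ℕ) (f : ℕ → ℕ) (hf : ∀ h ∈ T, f h ≠ 0) :
    cm e (∏ h ∈ T, f h) = ∏ h ∈ T, cm e (f h) := by
  classical
  induction T using Finset.induction_on with
  | empty => simp [cm]
  | insert a T ha ih =>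
    rw [prod_insert ha, prod_insert ha, cm_mul, ih (fun h hh => hf h (mem_insert_of_mem hh))]
    · exact hf a (mem_insert_self _ _)
    · exact prod_ne_zero_iff.2 fun h hh => hf h (mem_insert_of_mem hh)

/-- TASK E -/
theorem pair_int (s : ℕ → ℝ → ℝ) (u v C κ : ℝ) (hκ : 0 < κ) (hC : 0 ≤ C)
    (hs1 : ∀ p t, s p t = 1 ∨ s p t = -1) (hQ : QI s u v C κ) (T : Finset ℕ) {K z n m P : ℕ} (hK : 2 ≤ K)
    (hKz : K ≤ z) (hn : 1 ≤ n) (hm : 1 ≤ m) (hD : Dom K z (RR T n * RR T m) P) :
    |∫ t in u..v, FF s T n t * FF s T m t| ≤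
      C * (1 + Real.log ((RR T n * RR T m : ℕ) : ℝ) / Real.log 2) * (1 / (K : ℝ)) ^ κ := by
  classical
  obtain ⟨R, hR⟩ : ∃ R, R = RR T n * RR T m := ⟨_, rfl⟩
  have hR0 : R ≠ 0 := by rw [hR]; exact mul_ne_zero (RR_ne hn) (RR_ne hm)
  rw [← hR] at hD ⊢
  obtain ⟨hP, hzP, hv, hdom⟩ := hD
  have hPR : P ∈ R.primeFactors := by
    rw [← Nat.support_factorization, Finsupp.mem_support_iff, hv]
    exact one_ne_zero
  obtain ⟨O, hO⟩ : ∃ O, O = (R.primeFactors.erase P).filter (fun q => Odd (R.factorization q)) :=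
    ⟨_, rfl⟩
  have hOm : ∀ q ∈ O, q.Prime ∧ q ∣ R ∧ q ≠ P := by
    intro q hq
    rw [hO, mem_filter, mem_erase] at hq
    exact ⟨Nat.prime_of_mem_primeFactors hq.1.2, Nat.dvd_of_mem_primeFactors hq.1.2, hq.1.1⟩
  have hKR : (0 : ℝ) < K := by exact_mod_cast (by omega : 0 < K)
  have hPRp : (0 : ℝ) < P := by exact_mod_cast hP.pos
  -- the integrand
  have h1 : ∀ t, FF s T n t * FF s T m t = (∏ q ∈ O, s q t) * s P t := by
    intro t
    obtain ⟨e, he⟩ : ∃ e : ℕ → ℝ, e = fun p => s p t := ⟨_, rfl⟩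
    have e1 : FF s T n t * FF s T m t = cm e R := by
      unfold FF
      rw [← he, hR, cm_mul e (RR_ne hn) (RR_ne hm)]
      unfold RR
      rw [cm_prod e T _ (fun h _ => by omega), cm_prod e T _ (fun h _ => by omega)]
    have e2 : cm e R = ∏ q ∈ R.primeFactors, e q ^ R.factorization q := by
      unfold cm Finsupp.prod
      rw [Nat.support_factorization]
    have e3 : ∏ q ∈ R.primeFactors.erase P, e q ^ R.factorization q = ∏ q ∈ O, e q := by
      rw [hO, prod_filter]
      apply prod_congr rfl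
      intro q _
      have h2 : e q = 1 ∨ e q = -1 := by rw [he]; exact hs1 q t
      rcases h2 with h2 | h2
      · rw [h2]; simp
      · rw [h2]
        split_ifs with h3
        · exact h3.neg_one_pow
        · exact (Nat.not_odd_iff_even.1 h3).neg_one_pow
    rw [e1, e2, ← mul_prod_erase _ _ hPR, e3, hv, pow_one, he, mul_comm]
  simp_rw [h1]
  have h2 := hQ P hP O (by
    intro q hq
    obtain ⟨h3, h4, h5⟩ := hOm q hq
    refine ⟨h3, ?_⟩
    have h6 := hdom q h3 h4 h5
    have h7 := h3.two_le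
    nlinarith) (1 / (K : ℝ)) (by
      apply one_div_le_one_div_of_le hKR
      exact_mod_cast (by omega : K ≤ P)) (by
      intro q hq
      obtain ⟨h3, h4, h5⟩ := hOm q hq
      have h6 : (K : ℝ) * q ≤ P := by exact_mod_cast hdom q h3 h4 h5
      rw [one_div, inv_mul_eq_div, le_div_iff₀ hKR]
      linarith)
  refine h2.trans ?_
  have h3 : (O.card : ℝ) ≤ Real.log (R : ℝ) / Real.log 2 := by
    have h4 : 2 ^ O.card ≤ R := by
      have h5 : 2 ^ R.primeFactors.card ≤ ∏ p ∈ R.primeFactors, p := by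
        rw [← prod_const]
        exact prod_le_prod' fun p hp => (Nat.prime_of_mem_primeFactors hp).two_le
      have h6 : ∏ p ∈ R.primeFactors, p ≤ R :=
        Nat.le_of_dvd (Nat.pos_of_ne_zero hR0) (Nat.prod_primeFactors_dvd R)
      have h7 : O.card ≤ R.primeFactors.card := by
        apply card_le_card
        rw [hO]
        exact (filter_subset _ _).trans (erase_subset _ _)
      exact (Nat.pow_le_pow_right (by norm_num) h7).trans (h5.trans h6)
    have h5 : (2 : ℝ) ^ O.card ≤ R := by exact_mod_cast h4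
    rw [le_div_iff₀ (Real.log_pos (by norm_num))]
    have h6 := Real.log_le_log (by positivity) h5
    rwa [Real.log_pow] at h6
  have h4 : 0 ≤ (1 / (K : ℝ)) ^ κ := by positivity
  gcongr

end Pool.Agent.L5helper4.ML
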